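import Pool.Agent.AT6.Stmts1
import Pool.Agent.Helper98_AT3.Fxs

/-!
# Squad AT6, row IPS: inner products with a section component
-/

open scoped BigOperators

noncomputable section

namespace Pool.Agent.PP.T6.H32

open Pool.Agent.Helper51_AWC Pool.Agent.Helper79_WRA Pool.Agent.PP Pool.Agent.PP.KF
open Pool.Agent.PP.K9 Pool.Agent.PP.K9.H97 Pool.Agent.PP.H75 Pool.Agent.PP.T3 Pool.Agent.PP.T2

attribute [local instance] Ideal.Quotient.field

theorem reg_coe_iff {G : Type} [Group G] {ℓ : ℕ} {C : Subgroup G} (c : C) :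
    Reg ℓ (c : G) ↔ Reg ℓ c := by
  unfold Reg
  rw [Subgroup.orderOf_coe]

theorem sumC {G : Type} [Group G] [Fintype G] (ℓ : ℕ) (C : Subgroup G) [Fintype C] (F : G → ℂ) :
    ∑ᶠ (s : G) (_ : s ∈ C ∧ Reg ℓ s), F s =
      ∑ c : C, (open Classical in if Reg ℓ c then F c else 0) := by
  classical
  have h1 : ∀ s : G, ∑ᶠ (_ : s ∈ C ∧ Reg ℓ s), F s =
      ∑ c : C, if (c : G) = s then (if Reg ℓ c then F c else 0) else 0 := by
    intro s
    rw [finsum_eq_if]
    by_cases hs : s ∈ C
    · rw [Finset.sum_eq_single (⟨s, hs⟩ : C)]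
      · rw [if_pos rfl]
        by_cases hr : Reg ℓ s
        · rw [if_pos ⟨hs, hr⟩, if_pos ((reg_coe_iff (⟨s, hs⟩ : C)).1 hr)]
        · rw [if_neg (fun h => hr h.2), if_neg (fun h => hr ((reg_coe_iff (⟨s, hs⟩ : C)).2 h))]
      · intro c _ hc
        rw [if_neg]
        intro h'
        exact hc (Subtype.ext h')
      · intro h'; exact absurd (Finset.mem_univ _) h'
    · rw [if_neg (fun h => hs h.1), Finset.sum_eq_zero]
      intro c _
      rw [if_neg]
      intro h'
      exact hs (h' ▸ c.2)
  rw [finsum_eq_sum_of_fintype, Finset.sum_congr rfl (fun s _ => h1 s), Finset.sum_comm]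
  refine Finset.sum_congr rfl fun c _ => ?_
  simp

/-- IPS: inner products with a section component. -/
theorem ips (rot : K9.RotStmt) : IpsStmt := by
  intro ℓ hℓ M _ hM G _ _ v hv b hb θ θ' hθ hθ'
  classical
  have := Fintype.ofFinite G
  have := Fintype.ofFinite (Cu v)
  set C : Subgroup G := Cu v with hC
  set b' : C → FF M := fun t => b t with hb'
  obtain ⟨z, hz⟩ : ∃ z : C, (z : G) = v :=
    ⟨⟨v, Subgroup.mem_centralizer_singleton_iff.2 rfl⟩, rfl⟩
  have hzc : ∀ c : C, z * c = c * z := by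
    intro c
    apply Subtype.ext
    show (z : G) * c = c * z
    rw [hz]
    exact (Subgroup.mem_centralizer_singleton_iff.1 c.2).symm
  -- the values of the component
  have hgv : ∀ (c : C) (φ : G → ℂ), gv M C (v * c) b φ = ∑ t : C, eh M b' t * φ (v * c * t) := by
    intro c φ
    unfold gv gbv
    rw [finsum_eq_sum_of_fintype]
  have hsp : (fun c : C => θ c) ∈ Submodule.span ℂ (Irr C) := by
    apply T3.H98.span_irr
    intro x y
    exact hθ x y
  have hq : (fun c : C => gv M C (v * c) b θ) ∈ Submodule.span ℂ (IrrE M b') := by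
    have h := T3.H98.mem_span_blk (M := M) b' hzc hsp
    have e : (fun c : C => ∑ t, eh M b' t * (fun c : C => θ c) (z * c * t)) =
        (fun c : C => gv M C (v * c) b θ) := by
      funext c
      rw [hgv]
      refine Finset.sum_congr rfl fun t _ => ?_
      show eh M b' t * θ ((z * c * t : C) : G) = _
      rw [Subgroup.coe_mul, Subgroup.coe_mul, hz]
    rwa [e] at h
  have hqr := (rot ℓ M hM C b' hb.idem).1 _ hq
  have hps := T3.H98.proj_sum (M := M) b' hqr (fun c : C => θ' (v * c))
  have key : ∑ c : C, (if Reg ℓ c then gv M C (v * c) b θ * starRingEnd ℂ (θ' (v * c)) else 0) =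
      ∑ c : C, (if Reg ℓ c then gv M C (v * c) b θ *
        starRingEnd ℂ (gv M C (v * c) b θ') else 0) := by
    have h1 := congrArg (starRingEnd ℂ) hps
    rw [map_sum, map_sum] at h1
    have e1 : ∀ c : C, starRingEnd ℂ (starRingEnd ℂ
        ((fun g : C => if Reg ℓ g then (fun c : C => gv M C (v * c) b θ) g else 0) c) *
        (fun c : C => θ' (v * c)) c) =
        (if Reg ℓ c then gv M C (v * c) b θ * starRingEnd ℂ (θ' (v * c)) else 0) := by
      intro c
      rw [map_mul, Complex.conj_conj]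
      show (if Reg ℓ c then gv M C (v * c) b θ else 0) * _ = _
      split_ifs
      · rfl
      · rw [zero_mul]
    have e2 : ∀ c : C, starRingEnd ℂ (starRingEnd ℂ
        ((fun g : C => if Reg ℓ g then (fun c : C => gv M C (v * c) b θ) g else 0) c) *
        ∑ t : C, eh M b' t * (fun c : C => θ' (v * c)) (c * t)) =
        (if Reg ℓ c then gv M C (v * c) b θ * starRingEnd ℂ (gv M C (v * c) b θ') else 0) := by
      intro c
      rw [map_mul, Complex.conj_conj]
      have e3 : ∑ t : C, eh M b' t * (fun c : C => θ' (v * c)) (c * t) =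
          gv M C (v * c) b θ' := by
        rw [hgv]
        refine Finset.sum_congr rfl fun t _ => ?_
        show eh M b' t * θ' (v * ((c * t : C) : G)) = _
        rw [Subgroup.coe_mul, mul_assoc]
      rw [e3]
      show (if Reg ℓ c then gv M C (v * c) b θ else 0) * _ = _
      split_ifs
      · rfl
      · rw [zero_mul]
    rw [Finset.sum_congr rfl fun c _ => e1 c, Finset.sum_congr rfl fun c _ => e2 c] at h1
    exact h1
  -- the right side
  have hR : Pm M ℓ v b θ θ' = (Nat.card C : ℂ)⁻¹ *
      ∑ c : C, (if Reg ℓ c then gv M C (v * c) b θ *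
        starRingEnd ℂ (gv M C (v * c) b θ') else 0) := by
    unfold Pm
    rw [sumC ℓ C (fun s => gv M C (v * s) b θ * starRingEnd ℂ (gv M C (v * s) b θ'))]
  -- the left side
  have hlp : ∀ s : G, T5.Lp ℓ (v * s) v ↔ s ∈ C ∧ Reg ℓ s := by
    intro s
    constructor
    · intro h
      have h1 : v * (v * s) = v * s * v := h.com
      have h2 : s ∈ C := by
        rw [hC]
        apply Subgroup.mem_centralizer_singleton_iff.2
        have h3 : v * (v * s) = v * (s * v) := by rw [h1, mul_assoc]
        exact (mul_left_cancel h3).symm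
      refine ⟨h2, ?_⟩
      have h3 := h.reg
      rwa [inv_mul_cancel_left] at h3
    · rintro ⟨h1, h2⟩
      have h3 : s * v = v * s := Subgroup.mem_centralizer_singleton_iff.1 h1
      refine ⟨hv, ?_, ?_⟩
      · show v * (v * s) = v * s * v
        rw [mul_assoc, h3]
      · rwa [inv_mul_cancel_left]
  have hL : ∑ᶠ g, sv M ℓ v b θ g * starRingEnd ℂ (θ' g) =
      (Nat.card C : ℂ)⁻¹ * (Nat.card G * ∑ c : C, (if Reg ℓ c then
        gv M C (v * c) b θ * starRingEnd ℂ (θ' (v * c)) else 0)) := by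
    rw [finsum_eq_sum_of_fintype]
    have h1 : ∀ g : G, sv M ℓ v b θ g * starRingEnd ℂ (θ' g) =
        (Nat.card C : ℂ)⁻¹ * ∑ u : G, (if T5.Lp ℓ (u⁻¹ * g * u) v then
          gv M C (u⁻¹ * g * u) b θ * starRingEnd ℂ (θ' g) else 0) := by
      intro g
      unfold sv
      rw [finsum_eq_sum_of_fintype, mul_assoc, Finset.sum_mul]
      congr 1
      refine Finset.sum_congr rfl fun u _ => ?_
      rw [finsum_eq_if]
      split_ifs
      · rfl
      · rw [zero_mul]
    rw [Finset.sum_congr rfl fun g _ => h1 g, ← Finset.mul_sum, Finset.sum_comm]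
    congr 1
    have h2 : ∀ u : G, ∑ g : G, (if T5.Lp ℓ (u⁻¹ * g * u) v then
          gv M C (u⁻¹ * g * u) b θ * starRingEnd ℂ (θ' g) else 0) =
        ∑ k : G, (if T5.Lp ℓ k v then gv M C k b θ * starRingEnd ℂ (θ' k) else 0) := by
      intro u
      rw [← Equiv.sum_comp (MulAut.conj u).toEquiv]
      refine Finset.sum_congr rfl fun k _ => ?_
      have e1 : (MulAut.conj u).toEquiv k = u * k * u⁻¹ := rfl
      have e2 : u⁻¹ * (u * k * u⁻¹) * u = k := by group
      rw [e1, e2, hθ']
    rw [Finset.sum_congr rfl fun u _ => h2 u, Finset.sum_const, nsmul_eq_mul, Finset.card_univ,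
      Nat.card_eq_fintype_card]
    congr 1
    rw [← Equiv.sum_comp (Equiv.mulLeft v)]
    have h3 := sumC ℓ C (fun s => gv M C (v * s) b θ * starRingEnd ℂ (θ' (v * s)))
    rw [finsum_eq_sum_of_fintype] at h3
    rw [← h3]
    refine Finset.sum_congr rfl fun s _ => ?_
    rw [finsum_eq_if]
    show (if T5.Lp ℓ (v * s) v then _ else _) = _
    by_cases h : s ∈ C ∧ Reg ℓ s
    · rw [if_pos h, if_pos ((hlp s).2 h)]
      rfl
    · rw [if_neg h, if_neg (fun h' => h ((hlp s).1 h'))]
  rw [hL, hR, key]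
  ring

end Pool.Agent.PP.T6.H32
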