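import Pool.Agent.AT6.Stmts1
import Pool.Agent.Helper69_AT6.SVV
import Pool.Agent.Helper88_AT8.Dor
import Pool.Agent.Helper83_AT2.FRS
import Pool.Agent.Helper98_AT3.Fxs

/-!
# Squad AT6, row SEC: the decomposition of a class function into sections
-/

open scoped BigOperators

noncomputable section

namespace Pool.Agent.PP.T6.H32

open Pool.Agent.Helper51_AWC Pool.Agent.Helper79_WRA Pool.Agent.PP Pool.Agent.PP.KF
open Pool.Agent.PP.K9 Pool.Agent.PP.K9.H97 Pool.Agent.PP.H75 Pool.Agent.PP.T3 Pool.Agent.PP.T2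

attribute [local instance] Ideal.Quotient.field

section dec

variable {F H : Type} [Field F] [Group H] [Finite H]

/-- an additive function of idempotents is the sum over the blocks -/
theorem sum_blocks (Φ : (H → F) → ℂ) (h0 : Φ 0 = 0)
    (hadd : ∀ f₁ f₂ : H → F, IsIdem f₁ → IsIdem f₂ → mulF f₁ f₂ = 0 →
      Φ (f₁ + f₂) = Φ f₁ + Φ f₂) (f : H → F) (hf : IsIdem f) :
    Φ f = ∑ κ ∈ (T2.H83.blk_finite (F := F) (H := H)).toFinset,
      (open Classical in if mulF f κ = κ then Φ κ else 0) := by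
  classical
  refine H46.idem_induction (fun f => Φ f =
    ∑ κ ∈ (T2.H83.blk_finite (F := F) (H := H)).toFinset,
      (if mulF f κ = κ then Φ κ else 0)) ?_ ?_ ?_ f hf
  · show Φ 0 = _
    rw [h0, Finset.sum_eq_zero]
    intro κ hκ
    rw [Set.Finite.mem_toFinset] at hκ
    rw [if_neg]
    intro h
    exact hκ.2.1 (by rw [← h, mulF_zero_left])
  · intro b hb
    show Φ b = _
    rw [Finset.sum_eq_single b]
    · rw [if_pos hb.1.2]
    · intro κ hκ hne
      rw [Set.Finite.mem_toFinset] at hκ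
      rw [if_neg]
      intro h
      rcases hb.2.2 κ hκ.1 with h1 | h1
      · exact hne (by rw [← h, h1])
      · exact hκ.2.1 (by rw [← h, h1])
    · intro h
      exact absurd ((Set.Finite.mem_toFinset (T2.H83.blk_finite (F := F) (H := H))).2 hb) h
  · intro e₁ e₂ h1 h2 h12 p1 p2
    show Φ (e₁ + e₂) = _
    have p1' : Φ e₁ = _ := p1
    have p2' : Φ e₂ = _ := p2
    rw [hadd e₁ e₂ h1 h2 h12, p1', p2', ← Finset.sum_add_distrib]
    refine Finset.sum_congr rfl fun κ hκ => ?_
    rw [Set.Finite.mem_toFinset] at hκ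
    have h21 : mulF e₂ e₁ = 0 := by rw [← H46.mulF_comm h1.1, h12]
    have hs : mulF (e₁ + e₂) κ = mulF e₁ κ + mulF e₂ κ := by
      apply ma_injective
      rw [ma_mul, ma_add, ma_add, ma_mul, ma_mul, add_mul]
    have hx1 : mulF e₁ κ = κ → mulF e₂ κ = 0 := by
      intro h
      rw [← h, ← mulF_assoc, h21, mulF_zero_left]
    have hx2 : mulF e₂ κ = κ → mulF e₁ κ = 0 := by
      intro h
      rw [← h, ← mulF_assoc, h12, mulF_zero_left]
    by_cases c1 : mulF e₁ κ = κ
    · have c2 : mulF e₂ κ ≠ κ := by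
        rw [hx1 c1]
        exact fun h => hκ.2.1 h.symm
      rw [if_pos c1, if_neg c2, if_pos, add_zero]
      rw [hs, c1, hx1 c1, add_zero]
    · by_cases c2 : mulF e₂ κ = κ
      · rw [if_neg c1, if_pos c2, if_pos, zero_add]
        rw [hs, c2, hx2 c2, zero_add]
      · rw [if_neg c1, if_neg c2, if_neg, add_zero]
        intro h
        rcases T2.H83.blk_split hκ h1 h with h3 | h3
        · exact c1 h3
        · exact c2 h3

end dec

section orb

/-- the sum of the weights over an orbit is one -/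
theorem sum_orbit {G : Type} [Group G] [Fintype G] (T : Subgroup G) (v : G) (O : Set G)
    (hO : ∀ w, w ∈ O ↔ ∃ t ∈ T, t * v * t⁻¹ = w) :
    ∑ w : G, (open Classical in if w ∈ O then
      ((Nat.card (T ⊓ Cu w : Subgroup G) : ℂ) / Nat.card T) else 0) = 1 := by
  classical
  have hT : (Nat.card T : ℂ) ≠ 0 := by
    exact_mod_cast Nat.card_pos.ne'
  have key : ∀ w : G, (if w ∈ O then
      ((Nat.card (T ⊓ Cu w : Subgroup G) : ℂ) / Nat.card T) else 0) =
      (Nat.card T : ℂ)⁻¹ * ∑ t : T, (if (t : G) * v * (t : G)⁻¹ = w then (1 : ℂ) else 0) := by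
    intro w
    split_ifs with hw
    · obtain ⟨t₁, ht₁, htw⟩ := (hO w).1 hw
      rw [div_eq_inv_mul]
      congr 1
      rw [Finset.sum_boole]
      have e : Nat.card (T ⊓ Cu w : Subgroup G) =
          (Finset.univ.filter fun t : T => (t : G) * v * (t : G)⁻¹ = w).card := by
        rw [← Fintype.card_subtype, ← Nat.card_eq_fintype_card]
        refine Nat.card_congr ⟨fun s => ⟨⟨(s : G) * t₁, T.mul_mem s.2.1 ht₁⟩, ?_⟩,
          fun t => ⟨((t : T) : G) * t₁⁻¹, ?_, ?_⟩, ?_, ?_⟩
        · show (s : G) * t₁ * v * ((s : G) * t₁)⁻¹ = w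
          have h1 : (s : G) * w = w * s := Subgroup.mem_centralizer_singleton_iff.1 s.2.2
          calc (s : G) * t₁ * v * ((s : G) * t₁)⁻¹ = (s : G) * (t₁ * v * t₁⁻¹) * (s : G)⁻¹ := by
                group
            _ = w := by rw [htw, h1]; group
        · exact T.mul_mem (t : T).2 (T.inv_mem ht₁)
        · apply Subgroup.mem_centralizer_singleton_iff.2
          have h1 : ((t : T) : G) * v * ((t : T) : G)⁻¹ = w := t.2
          calc ((t : T) : G) * t₁⁻¹ * w = ((t : T) : G) * t₁⁻¹ * (t₁ * v * t₁⁻¹) := by rw [htw]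
            _ = (((t : T) : G) * v * ((t : T) : G)⁻¹) * (((t : T) : G) * t₁⁻¹) := by group
            _ = w * (((t : T) : G) * t₁⁻¹) := by rw [h1]
        · intro s
          apply Subtype.ext
          show (s : G) * t₁ * t₁⁻¹ = s
          group
        · intro t
          apply Subtype.ext
          apply Subtype.ext
          show ((t : T) : G) * t₁⁻¹ * t₁ = t
          group
      rw [e]
    · rw [Finset.sum_eq_zero, mul_zero]
      intro t _
      rw [if_neg]
      intro h
      exact hw ((hO w).2 ⟨t, t.2, h⟩)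
  rw [Finset.sum_congr rfl fun w _ => key w, ← Finset.mul_sum, Finset.sum_comm]
  have h2 : ∀ t : T, ∑ w : G, (if (t : G) * v * (t : G)⁻¹ = w then (1 : ℂ) else 0) = 1 := by
    intro t
    simp
  rw [Finset.sum_congr rfl fun t _ => h2 t, Finset.sum_const, Finset.card_univ, nsmul_eq_mul,
    mul_one, ← Nat.card_eq_fintype_card]
  exact inv_mul_cancel₀ hT

end orb

/-- existence of the `ℓ`-part -/
theorem lp_exists {G : Type} [Group G] [Finite G] {ℓ : ℕ} [Fact ℓ.Prime] (g : G) :
    ∃ x, T5.Lp ℓ g x := by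
  obtain ⟨N, hN, -⟩ := H27.prt ℓ G
  refine ⟨(g ^ N)⁻¹ * g, (hN g).2, ?_, ?_⟩
  · exact (((Commute.refl g).pow_left N).inv_left).mul_left (Commute.refl g)
  · have e : ((g ^ N)⁻¹ * g)⁻¹ * g = g ^ N := by
      have h1 : g⁻¹ * g ^ N * g = g ^ N := by
        have h2 : g ^ N * g = g * g ^ N := ((Commute.refl g).pow_left N).eq
        rw [mul_assoc, h2, inv_mul_cancel_left]
      rw [mul_inv_rev, inv_inv]
      exact h1
    rw [e]
    exact (hN g).1

/-- SEC: the decomposition of a class function into the components in the sections. -/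
theorem sec (svv : SvvStmt) (smh : SmhStmt) (lcx : LcxStmt) (loc : T3.LocStmt)
    (fus : T3.FusStmt) : SecStmt := by
  intro ℓ hℓ M _ hM G _ _ e V γ hL b hlc θ hθ g
  classical
  have := Fintype.ofFinite G
  have hF : GoodF ℓ (FF M) := H50.fld ℓ Fact.out M hM
  obtain ⟨x, hx⟩ := lp_exists (ℓ := ℓ) g
  set C : Subgroup G := Cu x with hC
  have := Fintype.ofFinite C
  obtain ⟨s, hs⟩ : ∃ s, s = x⁻¹ * g := ⟨_, rfl⟩
  have hg : g = x * s := by rw [hs]; group
  have hsC : s ∈ C := by
    apply Subgroup.mem_centralizer_singleton_iff.2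
    rw [hs]
    have h1 : x * g = g * x := hx.com
    calc x⁻¹ * g * x = x⁻¹ * (g * x) := by group
      _ = x⁻¹ * (x * g) := by rw [h1]
      _ = x * (x⁻¹ * g) := by group
  have hsr : Reg ℓ s := by rw [hs]; exact hx.reg
  have hE : IsIdem (fun t : C => e t) := T3.H98.idem_cu hF hL.blk.1 hx.el
  -- the blocks of the centraliser
  set K := (T2.H83.blk_finite (F := FF M) (H := C)).toFinset with hK
  have hKm : ∀ κ, κ ∈ K ↔ IsBlk κ := fun κ => Set.Finite.mem_toFinset _
  have hleft : T8.fv (eh M e) g θ = ∑ κ ∈ K,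
      (if mulF (fun t : C => e t) κ = κ then gbv C g (eh M κ) θ else 0) := by
    have h1 := smh ℓ M hM G e hL.blk.1 x hx.el s hsC hsr θ hθ
    rw [← hg] at h1
    rw [h1]
    show gbv C g (eh M fun t : C => e t) θ = _
    refine (sum_blocks (fun κ : C → FF M => gbv C g (eh M κ) θ) ?_ ?_ _ hE).trans
      (Finset.sum_congr rfl fun κ _ => ?_)
    · show gbv C g (eh M (0 : C → FF M)) θ = 0
      rw [T3.H98.eh_zero]
      unfold gbv
      rw [finsum_eq_sum_of_fintype, Finset.sum_eq_zero]
      intro t _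
      rw [Pi.zero_apply, zero_mul]
    · intro f₁ f₂ h1 h2 h12
      show gbv C g (eh M (f₁ + f₂)) θ = gbv C g (eh M f₁) θ + gbv C g (eh M f₂) θ
      rw [T3.H98.eh_add h1 h2 h12]
      unfold gbv
      rw [finsum_eq_sum_of_fintype, finsum_eq_sum_of_fintype, finsum_eq_sum_of_fintype,
        ← Finset.sum_add_distrib]
      refine Finset.sum_congr rfl fun t _ => ?_
      rw [Pi.add_apply, add_mul]
    · by_cases hc : mulF (fun t : C => e t) κ = κ
      · rw [if_pos hc, if_pos hc]
      · rw [if_neg hc, if_neg hc]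
  -- the relation between the elements of `V` and the blocks
  set R : G → (C → FF M) → Prop := fun v κ =>
    v ∈ V ∧ ∃ u : G, x = u * v * u⁻¹ ∧ (fun t : C => cj u (b v) t) = κ with hR
  have hbx : ∀ v ∈ V, ∀ u : G, x = u * v * u⁻¹ → Bx C (cj u (b v)) := by
    intro v hv u hu
    exact T3.H49.bx_cj hu.symm (hlc v hv).blk
  -- the conjugate block is under the idempotent
  have hund : ∀ v ∈ V, ∀ u : G, x = u * v * u⁻¹ →
      mulF (fun t : C => e t) (fun t : C => cj u (b v) t) = fun t : C => cj u (b v) t := by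
    intro v hv u hu
    have hres : ∀ (X : Subgroup G) (c : G → FF M), (∀ x, x ∉ X → c x = 0) →
        (fun s : X => mulF e c s) = mulF (fun s : X => e s) (fun s : X => c s) := by
      intro X c hc
      rw [H20.mulF_comm_of_cl hL.blk.1.1 c, mulF_res X e hc,
        H20.mulF_comm_of_cl (a := fun s : X => e s) (fun x y => hL.blk.1.1 x y)]
    have h1 := hres C (cj u (b v)) (hbx v hv u hu).supp
    have h2 := hres (Cu v) (b v) (hlc v hv).blk.supp
    rw [← h1]
    funext s
    have he : cj u e = e := cj_isCl u hL.blk.1.1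
    have h3 : mulF e (cj u (b v)) = cj u (mulF e (b v)) := by
      rw [cj_mulF, he]
    have h4 : u⁻¹ * (s : G) * u ∈ Cu v := (T3.H49.cu_conj hu.symm _).2 s.2
    have h5 := congrFun (h2.trans (hlc v hv).und) ⟨_, h4⟩
    show mulF e (cj u (b v)) (s : G) = cj u (b v) s
    rw [h3]
    exact h5
  -- uniqueness of the block
  have huniq : ∀ v ∈ V, ∀ u u' : G, x = u * v * u⁻¹ → x = u' * v * u'⁻¹ →
      cj u' (b v) = cj u (b v) := by
    intro v hv u u' hu hu'
    have hc : u' * u⁻¹ ∈ C := by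
      apply Subgroup.mem_centralizer_singleton_iff.2
      calc u' * u⁻¹ * x = u' * u⁻¹ * (u * v * u⁻¹) := by rw [← hu]
        _ = (u' * v * u'⁻¹) * (u' * u⁻¹) := by group
        _ = x * (u' * u⁻¹) := by rw [← hu']
    have h1 := (hbx v hv u hu).ix.inv hc
    have h2 : cj (u' * u⁻¹) (cj u (b v)) = cj u' (b v) := by
      funext t
      show b v (u⁻¹ * ((u' * u⁻¹)⁻¹ * t * (u' * u⁻¹)) * u) = b v (u'⁻¹ * t * u')
      congr 1
      group
    rw [← h2, h1]
  -- the values of the components
  have hsv : ∀ v ∈ V, ∀ u : G, x = u * v * u⁻¹ →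
      sv M ℓ v (b v) θ g = gbv C g (eh M fun t : C => cj u (b v) t) θ := by
    intro v hv u hu
    have hix := (hlc v hv).blk.ix
    have h1 := (svv ℓ M hM G v (b v) hix θ hθ).2.2.2.2 u g
    rw [← hu] at h1
    have h2 := (svv ℓ M hM G x (cj u (b v)) (hbx v hv u hu).ix θ hθ).1 g 1 (by
      have e1 : (1 : G)⁻¹ * g * 1 = g := by group
      rw [e1]
      exact hx)
    have e1 : (1 : G)⁻¹ * g * 1 = g := by group
    rw [e1] at h2
    rw [← h1, h2]
    rfl
  have hsv0 : ∀ v ∈ V, (∀ u : G, x ≠ u * v * u⁻¹) → sv M ℓ v (b v) θ g = 0 := by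
    intro v hv hu
    refine (svv ℓ M hM G v (b v) (hlc v hv).blk.ix θ hθ).2.1 g ?_
    intro u h
    have h1 := T6.H69.lp_conj u h
    have e1 : u * (u⁻¹ * g * u) * u⁻¹ = g := by group
    rw [e1] at h1
    exact hu u (T6.H69.lp_unique hx h1)
  -- the sum of the weights
  have hw : ∀ κ ∈ K, mulF (fun t : C => e t) κ = κ →
      ∑ v : G, (if R v κ then wt V γ v else 0) = 1 := by
    intro κ hκ hund'
    rw [hKm] at hκ
    set κ' : G → FF M := H75.ext0 C κ with hκ'
    have hres' : (fun t : C => κ' t) = κ := funext (ext0_apply C κ)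
    have hBx : Bx C κ' := ⟨ext0_supp C κ, by rw [hres']; exact hκ⟩
    obtain ⟨u, v, hv, hxu, hLc⟩ := lcx ℓ M hM G e V γ hL x hx.el κ' hBx (by
      rw [hres']; exact hund')
    have hbv : b v = cj u⁻¹ κ' := (loc ℓ (FF M) hF G e V γ hL v hv).2 _ _ (hlc v hv) hLc
    have hκv : cj u (b v) = κ' := by
      rw [hbv]
      funext t
      show κ' (u⁻¹⁻¹ * (u⁻¹ * t * u) * u⁻¹) = κ' t
      congr 1
      group
    have hO : ∀ w, w ∈ {w | R w κ} ↔ ∃ t ∈ Tg V γ, t * v * t⁻¹ = w := by
      intro w
      constructor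
      · rintro ⟨hwV, u', hu', hk⟩
        have hk' : cj u' (b w) = κ' := by
          apply eq_of_res (hbx w hwV u' hu').supp hBx.supp
          rw [hk, hres']
        have hg1 : u⁻¹ * u' * w * (u⁻¹ * u')⁻¹ = v := by
          calc u⁻¹ * u' * w * (u⁻¹ * u')⁻¹ = u⁻¹ * (u' * w * u'⁻¹) * u := by group
            _ = u⁻¹ * (u * v * u⁻¹) * u := by rw [← hu', hxu]
            _ = v := by group
        have hg2 : cj (u⁻¹ * u') (b w) = b v := by
          have e1 : cj (u⁻¹ * u') (b w) = cj u⁻¹ (cj u' (b w)) := by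
            funext t
            show b w ((u⁻¹ * u')⁻¹ * t * (u⁻¹ * u')) = b w (u'⁻¹ * (u⁻¹⁻¹ * t * u⁻¹) * u')
            congr 1
            group
          rw [e1, hk', hbv]
        obtain ⟨t, ht, htv⟩ := fus ℓ M hM G e V γ hL v hv w hwV (b v) (b w) (hlc v hv)
          (hlc w hwV) (u⁻¹ * u') hg1 hg2
        refine ⟨t⁻¹, (Tg V γ).inv_mem ht, ?_⟩
        rw [← htv]
        group
      · rintro ⟨t, ht, htv⟩
        have hwV : w ∈ V := by
          rw [← htv]
          exact (Subgroup.mem_normalizer_iff.1 ht.1 v).1 hv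
        have hl : Lc e V γ w (cj t (b v)) := T8.H88.lc_cj hL ht htv (hlc v hv)
        have hbw : b w = cj t (b v) := (loc ℓ (FF M) hF G e V γ hL w hwV).2 _ _ (hlc w hwV) hl
        refine ⟨hwV, u * t⁻¹, ?_, ?_⟩
        · rw [← htv, hxu]
          group
        · rw [hbw]
          have e1 : cj (u * t⁻¹) (cj t (b v)) = cj u (b v) := by
            funext y
            show b v (t⁻¹ * ((u * t⁻¹)⁻¹ * y * (u * t⁻¹)) * t) = b v (u⁻¹ * y * u)
            congr 1
            group
          rw [e1, hκv, hres']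
    have h1 := sum_orbit (Tg V γ) v {w | R w κ} hO
    rw [← h1]
    refine Finset.sum_congr rfl fun w _ => ?_
    by_cases hw : R w κ
    · rw [if_pos hw]
      exact (if_pos (show w ∈ {w | R w κ} from hw)).symm
    · rw [if_neg hw]
      exact (if_neg (show w ∉ {w | R w κ} from hw)).symm
  -- the right side
  have hright : ∑ᶠ (v : G) (_ : v ∈ V), wt V γ v * sv M ℓ v (b v) θ g =
      ∑ v : G, ∑ κ ∈ K, (if mulF (fun t : C => e t) κ = κ then
        (if R v κ then wt V γ v * gbv C g (eh M κ) θ else 0) else 0) := by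
    rw [finsum_eq_sum_of_fintype]
    refine Finset.sum_congr rfl fun v _ => ?_
    rw [finsum_eq_if]
    by_cases hv : v ∈ V
    · rw [if_pos hv]
      by_cases hu : ∃ u : G, x = u * v * u⁻¹
      · obtain ⟨u, hu⟩ := hu
        rw [Finset.sum_eq_single (fun t : C => cj u (b v) t)]
        · rw [if_pos (hund v hv u hu), if_pos ⟨hv, u, hu, rfl⟩, hsv v hv u hu]
        · intro κ _ hne
          have hnR : ¬ R v κ := by
            rintro ⟨_, u', hu', hk⟩
            apply hne
            rw [← hk, huniq v hv u u' hu hu']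
          rw [if_neg hnR]
          split_ifs <;> rfl
        · intro h
          exact absurd ((hKm _).2 (hbx v hv u hu).blk) h
      · rw [hsv0 v hv (fun u h => hu ⟨u, h⟩), mul_zero, Finset.sum_eq_zero]
        intro κ _
        have hnR : ¬ R v κ := by
          rintro ⟨_, u', hu', _⟩
          exact hu ⟨u', hu'⟩
        rw [if_neg hnR]
        split_ifs <;> rfl
    · rw [if_neg hv, Finset.sum_eq_zero]
      intro κ _
      rw [if_neg (fun h : R v κ => hv h.1)]
      split_ifs <;> rfl
  rw [hleft, hright, Finset.sum_comm]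
  refine Finset.sum_congr rfl fun κ hκ => ?_
  by_cases hund' : mulF (fun t : C => e t) κ = κ
  · rw [if_pos hund']
    have h1 : ∀ v : G, (if mulF (fun t : C => e t) κ = κ then
        (if R v κ then wt V γ v * gbv C g (eh M κ) θ else 0) else 0) =
        (if R v κ then wt V γ v else 0) * gbv C g (eh M κ) θ := by
      intro v
      rw [if_pos hund']
      split_ifs
      · rfl
      · rw [zero_mul]
    rw [Finset.sum_congr rfl fun v _ => h1 v, ← Finset.sum_mul, hw κ hκ hund', one_mul]
  · rw [if_neg hund', Finset.sum_eq_zero]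
    intro v _
    rw [if_neg hund']

end Pool.Agent.PP.T6.H32
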